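import Pool.Agent.Helper96.BT.Defs
import Pool.Agent.Helper99.NK.Times

/-!
# Programs which read some symbols rarely and all others arbitrarily often: definitions

The computation is cut at the level sets of the sum of the counters of `q` sampled symbols; a counter stops at `w + 1`.
-/

set_option autoImplicit false

namespace Pool.Agent.Helper99.BT

open Finset Pool.Agent.Helper74.NW Pool.Agent.Helper96.BT
open Pool.Agent.Helper99.NK (times)

section lists

variable {C : Type} {S q J : ℕ}

/-- The pieces of a side, for the cut points `b`. -/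
def sideb (A : Finset (Fin J)) (b : ℕ → ℕ) (σ : Fin (J + 1) → Fin S) : List (Fin S × ℕ × Fin S) :=
  ((List.finRange J).filter (fun j => j ∈ A)).map (fun j => (σ j.castSucc, b (j.val + 1) - b j.val, σ j.succ))

/-- The part of a list between the cut points number `j` and `j + 1`. -/
def seg (b : ℕ → ℕ) (l : List C) (j : ℕ) : List C := (l.drop (b j)).take (b (j + 1) - b j)

/-- The part of a list on a side. -/
def partb (A : Finset (Fin J)) (b : ℕ → ℕ) (l : List C) : List C :=
  ((List.finRange J).filter (fun j => j ∈ A)).flatMap (fun j => seg b l j.val)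

/-- The counters of the samples `H`, which stop at `w + 1`, after the queries `p`. -/
noncomputable def adv (H : Fin q → C) (w : ℕ) (v : Fin q → ℕ) (p : List C) : Fin q → ℕ :=
  fun i => min (v i + times p (H i)) (w + 1)

/-- The sum of the counters. -/
def kap (v : Fin q → ℕ) : ℕ := ∑ i, v i

/-- The cut point number `j`: the number of prefixes with less than `j` counted queries. -/
noncomputable def cutp (H : Fin q → C) (w : ℕ) (l : List C) (j : ℕ) : ℕ :=
  ((range l.length).filter (fun t => kap (adv H w 0 (l.take t)) < j)).card

/-- The condition for the window number `j`, with the counters `v` before and `v'` after it. -/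
def WinP (H : Fin q → C) (w j : ℕ) (v v' : Fin q → ℕ) (c : List C) : Prop :=
  (∀ t < c.length, kap (adv H w v (c.take t)) ≤ j) ∧ adv H w v c = v'

/-- The condition for the windows of a side. -/
def PhiS (H : Fin q → C) (w : ℕ) (A : Finset (Fin J)) (b : ℕ → ℕ) (V : ℕ → Fin q → ℕ) (c : List C) : Prop :=
  ∃ cs : ℕ → List C, c = ((List.finRange J).filter (fun j => j ∈ A)).flatMap (fun j => cs j.val) ∧
    ∀ j ∈ A, (cs j.val).length = b (j.val + 1) - b j.val ∧ WinP H w j.val (V j.val) (V (j.val + 1)) (cs j.val)

/-- The cut points and counters of a type. -/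
structure Adm (J : ℕ) (b : ℕ → ℕ) (V : ℕ → Fin q → ℕ) : Prop where
  mono : Monotone b
  b0 : b 0 = 0
  v0 : V 0 = 0
  next : ∀ j < J, j < kap (V (j + 1)) ∨ b (j + 1) = b J

/-- Good computations: at least `κ` samples are rare, both sides leave at least all but `T` symbols unread. -/
def GoodH [Fintype C] (H : Fin q → C) (w T : ℕ) (κ : ℝ) (A : Finset (Fin J)) (l : List C) : Prop :=
  κ ≤ Nat.card {i // times l (H i) ≤ w} ∧ Fintype.card C ≤ (free (partb A (cutp H w l) l)).card + T ∧
    Fintype.card C ≤ (free (partb Aᶜ (cutp H w l) l)).card + T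

end lists

end Pool.Agent.Helper99.BT
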