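import Pool.Agent.Helper99.BT.Defs
import Pool.Agent.Helper27.BT.Cutp
import Pool.Agent.Helper14.BT.Unique
import Pool.Agent.Helper1.BT.Sides
import Pool.Agent.Helper70.BT.Seg
import Pool.Agent.Helper17.BT.Ends
import Pool.Agent.Helper97.BT.Beta

/-!
# BT, piece W: the classes
-/

set_option autoImplicit false
set_option linter.unusedSectionVars false

namespace Pool.Agent.Helper99.BT.Asm

open Finset Pool.Agent.Helper74.NW Pool.Agent.Helper96.BT Pool.Agent.Helper99.BT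
open Pool.Agent.Helper99.NK (times)
open Pool.Agent.Helper96.PH (Det)
open Pool.Agent.Helper27.BT (adm_cutp)
open Pool.Agent.Helper14.BT (adm_unique)
open Pool.Agent.Helper1.BT (winP_of_sides phiS_partb)
open Pool.Agent.Helper70.BT.Seg (runL_side run_of_sides)
open Pool.Agent.Helper17.BT (sigma_unique ends_unique)
open Pool.Agent.Helper97.BT (beta_le)

section congr

variable {C : Type} {S q J w : ℕ} {H : Fin q → C}

theorem sideb_congr (A : Finset (Fin J)) {b b' : ℕ → ℕ} (h : ∀ j ≤ J, b j = b' j) (σ : Fin (J + 1) → Fin S) :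
    sideb A b σ = sideb A b' σ := by
  unfold sideb
  refine List.map_congr_left fun j _ => ?_
  rw [h j.val j.isLt.le, h (j.val + 1) j.isLt]

theorem seg_congr {b b' : ℕ → ℕ} (h : ∀ j ≤ J, b j = b' j) (l : List C) {j : ℕ} (hj : j < J) :
    seg b l j = seg b' l j := by
  unfold seg
  rw [h j hj.le, h (j + 1) hj]

theorem partb_congr (A : Finset (Fin J)) {b b' : ℕ → ℕ} (h : ∀ j ≤ J, b j = b' j) (l : List C) :
    partb A b l = partb A b' l := by
  unfold partb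
  refine List.flatMap_congr fun j _ => ?_
  exact seg_congr h l j.isLt

theorem adm_congr {b b' : ℕ → ℕ} {V V' : ℕ → Fin q → ℕ} (hm : Monotone b') (hb : ∀ j ≤ J, b j = b' j)
    (hV : ∀ j ≤ J, V j = V' j) (h : Adm J b V) : Adm J b' V' where
  mono := hm
  b0 := by rw [← hb 0 (Nat.zero_le _)]; exact h.b0
  v0 := by rw [← hV 0 (Nat.zero_le _)]; exact h.v0
  next := by
    intro j hj
    rw [← hb (j + 1) hj, ← hV (j + 1) hj, ← hb J le_rfl]
    exact h.next j hj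

end congr

section types

variable {C X Z : Type} [Fintype C] {S q : ℕ} (J w d : ℕ)

/-- The raw types: cut points, counters, states. -/
abbrev Raw (S q J w d : ℕ) : Type :=
  (Fin (J + 1) → Fin (2 ^ d + 1)) × (Fin (J + 1) → Fin q → Fin (w + 2)) × (Fin (J + 1) → Fin S)

theorem card_raw : Fintype.card (Raw S q J w d) = (S * (2 ^ d + 1) * (w + 2) ^ q) ^ (J + 1) := by
  unfold Raw
  simp only [Fintype.card_prod, Fintype.card_fun, Fintype.card_fin]
  rw [← pow_mul, mul_pow, mul_pow, ← pow_mul]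
  ring

variable {J w d}

/-- The cut points of a type. -/
def bf (t : Raw S q J w d) (j : ℕ) : ℕ := t.1 ⟨min j J, Nat.lt_succ_of_le (min_le_right j J)⟩

/-- The counters of a type. -/
def vf (t : Raw S q J w d) (j : ℕ) (i : Fin q) : ℕ := t.2.1 ⟨min j J, Nat.lt_succ_of_le (min_le_right j J)⟩ i

theorem bf_le (t : Raw S q J w d) (j : ℕ) : bf t j ≤ 2 ^ d := Nat.le_of_lt_succ (t.1 _).isLt

theorem raw_ext {t t' : Raw S q J w d} (hb : ∀ j ≤ J, bf t j = bf t' j) (hv : ∀ j ≤ J, vf t j = vf t' j)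
    (hs : t.2.2 = t'.2.2) : t = t' := by
  obtain ⟨b, V, σ⟩ := t
  obtain ⟨b', V', σ'⟩ := t'
  refine Prod.ext ?_ (Prod.ext ?_ hs)
  · funext j
    have h := hb j.val (Nat.le_of_lt_succ j.isLt)
    unfold bf at h
    have h1 : (⟨min j.val J, Nat.lt_succ_of_le (min_le_right _ J)⟩ : Fin (J + 1)) = j :=
      Fin.ext (min_eq_left (Nat.le_of_lt_succ j.isLt))
    rw [h1] at h
    exact Fin.ext h
  · funext j i
    have h := congrFun (hv j.val (Nat.le_of_lt_succ j.isLt)) i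
    unfold vf at h
    have h1 : (⟨min j.val J, Nat.lt_succ_of_le (min_le_right _ J)⟩ : Fin (J + 1)) = j :=
      Fin.ext (min_eq_left (Nat.le_of_lt_succ j.isLt))
    rw [h1] at h
    exact Fin.ext h

/-- The admissible types. -/
def Ok (P : NProg C X Z S) (κ : ℝ) (t : Raw S q J w d) : Prop :=
  Adm J (bf t) (vf t) ∧ t.2.2 0 = P.start ∧ (∃ z, P.act (t.2.2 (Fin.last J)) = Sum.inr z) ∧
    κ ≤ Nat.card {i : Fin q // vf t J i ≤ w}

/-- The sides. -/
def sd (A : Finset (Fin J)) (j : Fin 2) : Finset (Fin J) := if j = 0 then A else Aᶜ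

/-- In the class of the type `t`. -/
def InK (P : NProg C X Z S) (H : Fin q → C) (T : ℕ) (A : Finset (Fin J)) (t : Raw S q J w d) (I : C → X) : Prop :=
  ∀ j : Fin 2, InC P T (sideb (sd A j) (bf t) t.2.2) (PhiS H w (sd A j) (bf t) (vf t)) I

theorem card_vf {H : Fin q → C} {v : Fin q → ℕ} {l : List C} (h : v = adv H w 0 l) :
    Nat.card {i : Fin q // v i ≤ w} = Nat.card {i : Fin q // times l (H i) ≤ w} := by
  refine Nat.card_congr (Equiv.subtypeEquivRight fun i => ?_)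
  rw [h]
  show min (0 + times l (H i)) (w + 1) ≤ w ↔ _
  omega

/-- The computation of an input of a class. -/
theorem of_inK {P : NProg C X Z S} {H : Fin q → C} {T : ℕ} {κ : ℝ} {A : Finset (Fin J)} {t : Raw S q J w d}
    {I : C → X} (ht : Ok P κ t) (h : InK P H T A t I) :
    ∃ l z, P.Ends I l z ∧ P.act (t.2.2 (Fin.last J)) = Sum.inr z ∧ GoodH H w T κ A l ∧
      (∀ j ≤ J, bf t j = cutp H w l j) ∧ ∀ j ≤ J, vf t j = adv H w 0 (l.take (bf t j)) := by
  obtain ⟨hadm, h0, ⟨z, hz⟩, hκ⟩ := ht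
  obtain ⟨c, hc, hΦ, hf⟩ := h 0
  obtain ⟨c', hc', hΦ', hf'⟩ := h 1
  have e0 : sd A 0 = A := if_pos rfl
  have e1 : sd A 1 = Aᶜ := if_neg (by decide)
  rw [e0] at hc hΦ
  rw [e1] at hc' hΦ'
  obtain ⟨l, hr, hl, rfl, rfl⟩ := run_of_sides hadm.mono hadm.b0 hc hc'
  have hw := winP_of_sides hadm.mono hl.ge hΦ hΦ'
  have hu := adm_unique hadm hl.symm hw
  have hb : ∀ j ≤ J, bf t j = cutp H w l j := fun j hj => (hu j hj).1
  have hv : vf t J = adv H w 0 l := by
    rw [(hu J le_rfl).2, ← hl, List.take_length]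
  refine ⟨l, z, ⟨_, h0 ▸ hr, hz⟩, hz, ⟨?_, ?_, ?_⟩, hb, fun j hj => (hu j hj).2⟩
  · rw [← card_vf hv]
    exact hκ
  · rw [← partb_congr A hb]
    exact hf
  · rw [← partb_congr Aᶜ hb]
    exact hf'

/-- The types of an input are unique. -/
theorem unique {P : NProg C X Z S} (hP : Det P) {H : Fin q → C} {T : ℕ} {κ : ℝ} {A : Finset (Fin J)}
    {t t' : Raw S q J w d} {I : C → X} (ht : Ok P κ t) (h : InK P H T A t I) (ht' : Ok P κ t')
    (h' : InK P H T A t' I) : t = t' := by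
  obtain ⟨l, z, hE, -, -, hb, hv⟩ := of_inK ht h
  obtain ⟨l', z', hE', -, -, hb', hv'⟩ := of_inK ht' h'
  obtain ⟨rfl, -, -⟩ := ends_unique hP hE hE'
  have hbb : ∀ j ≤ J, bf t j = bf t' j := fun j hj => (hb j hj).trans (hb' j hj).symm
  refine raw_ext hbb (fun j hj => by rw [hv j hj, hv' j hj, hbb j hj]) ?_
  obtain ⟨c, hc, -, -⟩ := h 0
  obtain ⟨c', hc', -, -⟩ := h 1
  obtain ⟨d, hd, -, -⟩ := h' 0
  obtain ⟨d', hd', -, -⟩ := h' 1
  have e0 : sd A 0 = A := if_pos rfl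
  have e1 : sd A 1 = Aᶜ := if_neg (by decide)
  rw [e0] at hc hd
  rw [e1] at hc' hd'
  rw [← sideb_congr A hbb] at hd
  rw [← sideb_congr Aᶜ hbb] at hd'
  exact sigma_unique hP hc hc' hd hd' (ht.2.1.trans ht'.2.1.symm)

theorem adv_lt (H : Fin q → C) (w : ℕ) (v : Fin q → ℕ) (p : List C) (i : Fin q) : adv H w v p i < w + 2 :=
  Nat.lt_succ_of_le (min_le_right _ _)

/-- A good input is in a class. -/
theorem exists_inK {P : NProg C X Z S} (hP : Det P) (hS : S ≤ 2 ^ d) {H : Fin q → C} {T : ℕ} {κ : ℝ}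
    (hJ : (w + 1) * q < J) {A : Finset (Fin J)}
    {I : C → X} {l : List C} {z : Z} (hE : P.Ends I l z) (hg : GoodH H w T κ A l) :
    ∃ t : Raw S q J w d, Ok P κ t ∧ InK P H T A t I ∧ P.act (t.2.2 (Fin.last J)) = Sum.inr z := by
  obtain ⟨hadm, hcJ, hwin⟩ := adm_cutp (H := H) hJ l
  have hlen : l.length < 2 ^ d + 1 := Nat.lt_succ_of_lt (lt_of_lt_of_le (ends_unique hP hE hE).2.2 hS)
  have hcl : ∀ j, j ≤ J → cutp H w l j < 2 ^ d + 1 := fun j hj => by
    have := hadm.mono hj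
    rw [hcJ] at this
    exact lt_of_le_of_lt this hlen
  obtain ⟨s, hr, hs⟩ := hE
  obtain ⟨σ, h0, hlast, hside⟩ := runL_side hr hadm.mono hadm.b0 hcJ
  set t : Raw S q J w d := (fun j => ⟨cutp H w l j.val, hcl j.val (Nat.le_of_lt_succ j.isLt)⟩,
    fun j i => ⟨adv H w 0 (l.take (cutp H w l j.val)) i, adv_lt _ _ _ _ _⟩, σ) with ht
  have hb : ∀ j ≤ J, cutp H w l j = bf t j := by
    intro j hj
    show cutp H w l j = cutp H w l (min j J)
    rw [min_eq_left hj]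
  have hv : ∀ j ≤ J, adv H w 0 (l.take (cutp H w l j)) = vf t j := by
    intro j hj
    funext i
    show adv H w 0 (l.take (cutp H w l j)) i = adv H w 0 (l.take (cutp H w l (min j J))) i
    rw [min_eq_left hj]
  have hm : Monotone (bf t) := fun i j hij => hadm.mono (min_le_min_right J hij)
  have hvJ : vf t J = adv H w 0 l := by rw [← hv J le_rfl, hcJ, List.take_length]
  have hadm' : Adm J (bf t) (vf t) := adm_congr hm hb hv hadm
  have hwin' : ∀ j < J, WinP H w j (vf t j) (vf t (j + 1)) (seg (bf t) l j) := by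
    intro j hj
    rw [← hv j hj.le, ← hv (j + 1) hj, ← seg_congr hb l hj]
    exact hwin j
  have hbJ : bf t J = l.length := by rw [← hb J le_rfl, hcJ]
  refine ⟨t, ⟨hadm', h0, ⟨z, ?_⟩, ?_⟩, ?_, ?_⟩
  · show P.act (σ (Fin.last J)) = _
    rw [hlast]
    exact hs
  · rw [card_vf hvJ]
    exact hg.1
  · intro j
    have key : ∀ A' : Finset (Fin J), Fintype.card C ≤ (free (partb A' (cutp H w l) l)).card + T →
        InC P T (sideb A' (bf t) t.2.2) (PhiS H w A' (bf t) (vf t)) I := by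
      intro A' hA'
      refine ⟨partb A' (bf t) l, ?_, phiS_partb A' hm hbJ.le hwin', ?_⟩
      · rw [← sideb_congr A' hb, ← partb_congr A' hb]
        exact hside A'
      · rw [← partb_congr A' hb]
        exact hA'
    by_cases hj : j = 0
    · have e0 : sd A j = A := if_pos hj
      rw [e0]
      exact key A hg.2.1
    · have e1 : sd A j = Aᶜ := if_neg hj
      rw [e1]
      exact key Aᶜ hg.2.2
  · show P.act (σ (Fin.last J)) = _
    rw [hlast]
    exact hs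

theorem length_side (A : Finset (Fin J)) (b : ℕ → ℕ) (σ : Fin (J + 1) → Fin S) : (sideb A b σ).length ≤ J := by
  unfold sideb
  rw [List.length_map]
  refine (List.length_filter_le _ _).trans ?_
  rw [List.length_finRange]

theorem mem_side {A : Finset (Fin J)} {t : Raw S q J w d} {p : Fin S × ℕ × Fin S}
    (hp : p ∈ sideb A (bf t) t.2.2) : p.2.1 ≤ 2 ^ d := by
  unfold sideb at hp
  rw [List.mem_map] at hp
  obtain ⟨j, -, rfl⟩ := hp
  exact (Nat.sub_le _ _).trans (bf_le t _)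

end types

/-- The classes, from samples and colours for `P` (E5). -/
theorem classes_of {C X Z : Type} [Fintype C] [Fintype X] [Nonempty C] {S d : ℕ} (P : NProg C X Z S) (hP : Det P)
    (hS : S ≤ 2 ^ d) {w q T : ℕ} {ε θ : ℝ}
    (hcut : ∀ {E : ℕ}, 0 < q → 0 < E → E ≤ Fintype.card C → S ≤ 2 ^ d → 0 < ε →
      (Fintype.card C : ℝ) ≤ T + ε * Fintype.card C / (2 * 2 ^ w) →
      ∃ (H : Fin q → C) (A : Finset (Fin ((w + 1) * q + 1))),
      (Nat.card {I : C → X // ∃ l z, P.Ends I l z ∧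
        ((Rare ε w l ∧ ¬ GoodH H w T (3 / 4 * ε * q) A l) ∨
          (GoodH H w T (3 / 4 * ε * q) A l ∧ ¬ Rare (ε / 2) w l))} : ℝ) ≤
      ((2 ^ d + 1) ^ 2 * (1 - (E : ℝ) / Fintype.card C) ^ q +
        8 * 2 ^ w * ((w + 1) * q + 1) * E ^ 2 / (ε * Fintype.card C) ^ 2 + 16 / (ε * q)) * Nat.card (C → X)) (h0 : 0 < ε) (h1 : ε ≤ 1) (hθ0 : 0 < θ) (hθ1 : θ ≤ 1)
    (hT : (Fintype.card C : ℝ) ≤ T + ε / (4 * 2 ^ w) * Fintype.card C)
    (hq : (10 ^ 6 : ℝ) * 2 ^ w * (w + 1) * (d + 1 / θ) ^ 2 / (ε ^ 2 * θ) ≤ q) (hqN : q ≤ Fintype.card C) :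
    ∃ (Θ : Type) (_ : Fintype Θ) (L : Θ → Fin 2 → List (Fin S × ℕ × Fin S)) (Φ : Θ → Fin 2 → List C → Prop)
      (y : Θ → Z), Fintype.card Θ ≤ (S * (2 ^ d + 1) * (w + 2) ^ q) ^ ((w + 1) * q + 2) ∧
      (∀ t j, (L t j).length ≤ (w + 1) * q + 1) ∧ (∀ t j, ∀ p ∈ L t j, p.2.1 ≤ 2 ^ d) ∧
      (Nat.card {I : C → X // ∃ l z, P.Ends I l z ∧ Rare ε w l ∧
        ¬ ∃ t, y t = z ∧ ∀ j, InC P T (L t j) (Φ t j) I} : ℝ) ≤ θ * Nat.card (C → X) ∧
      ∑ t, (Nat.card {I : C → X // ∀ j, InC P T (L t j) (Φ t j) I} : ℝ) ≤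
        Nat.card {I : C → X // ∃ l z, P.Ends I l z ∧ Rare (ε / 2) w l} + θ * Nat.card (C → X) := by
  classical
  have hN : (0 : ℝ) < Fintype.card C := Nat.cast_pos.2 Fintype.card_pos
  have hq0 : 0 < q := by
    rw [← Nat.cast_pos (α := ℝ)]
    refine lt_of_lt_of_le ?_ hq
    positivity
  obtain ⟨E, hE0, hE, hβ⟩ := beta_le h0 h1 hθ0 hθ1 hqN hq
  have hT' : (Fintype.card C : ℝ) ≤ T + ε * Fintype.card C / (2 * 2 ^ w) := by
    refine hT.trans (add_le_add le_rfl ?_)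
    rw [div_mul_eq_mul_div]
    refine div_le_div_of_nonneg_left (by positivity) (by positivity) ?_
    have : (0 : ℝ) < 2 ^ w := by positivity
    linarith
  obtain ⟨J, hJ⟩ : ∃ J, J = (w + 1) * q + 1 := ⟨_, rfl⟩
  obtain ⟨κ, hκ⟩ : ∃ κ : ℝ, κ = 3 / 4 * ε * q := ⟨_, rfl⟩
  obtain ⟨H, A, hHA⟩ : ∃ (H : Fin q → C) (A : Finset (Fin J)),
      (Nat.card {I : C → X // ∃ l z, P.Ends I l z ∧ ((Rare ε w l ∧ ¬ GoodH H w T κ A l) ∨
          (GoodH H w T κ A l ∧ ¬ Rare (ε / 2) w l))} : ℝ) ≤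
      ((2 ^ d + 1) ^ 2 * (1 - (E : ℝ) / Fintype.card C) ^ q +
        8 * 2 ^ w * ((w + 1) * q + 1) * E ^ 2 / (ε * Fintype.card C) ^ 2 + 16 / (ε * q)) * Nat.card (C → X) := by
    subst hJ hκ
    exact hcut hq0 hE0 hE hS h0 hT'
  have hJ' : (w + 1) * q < J := hJ ▸ Nat.lt_succ_self _
  have hfin : Finite (C → X) := inferInstance
  -- the bound of the bad inputs
  have hbad : (Nat.card {I : C → X // ∃ l z, P.Ends I l z ∧ ((Rare ε w l ∧ ¬ GoodH H w T κ A l) ∨
      (GoodH H w T κ A l ∧ ¬ Rare (ε / 2) w l))} : ℝ) ≤ θ * Nat.card (C → X) :=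
    hHA.trans (mul_le_mul_of_nonneg_right hβ (Nat.cast_nonneg _))
  refine ⟨{t : Raw S q J w d // Ok P κ t}, inferInstance, fun t j => sideb (sd A j) (bf t.1) t.1.2.2,
    fun t j => PhiS H w (sd A j) (bf t.1) (vf t.1), fun t => t.2.2.2.1.choose, ?_,
    fun t j => (length_side _ _ _).trans hJ.le,
    fun t j p hp => mem_side hp, ?_, ?_⟩
  · refine (Fintype.card_subtype_le _).trans (le_of_eq ?_)
    rw [card_raw, hJ]
  · refine le_trans ?_ hbad
    refine Nat.cast_le.2 (Nat.card_le_card_of_injective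
      (fun I : {I : C → X // ∃ l z, P.Ends I l z ∧ Rare ε w l ∧
        ¬ ∃ t : {t : Raw S q J w d // Ok P κ t}, t.2.2.2.1.choose = z ∧ InK P H T A t.1 I} =>
        (⟨I.1, by
          obtain ⟨l, z, hE, hR, hn⟩ := I.2
          refine ⟨l, z, hE, Or.inl ⟨hR, fun hg => hn ?_⟩⟩
          obtain ⟨t, ht, hk, hz⟩ := exists_inK hP hS hJ' hE hg
          refine ⟨⟨t, ht⟩, ?_, hk⟩
          exact (Sum.inr_injective (hz.symm.trans ht.2.2.1.choose_spec)).symm⟩ : {I : C → X // ∃ l z, P.Ends I l z ∧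
            ((Rare ε w l ∧ ¬ GoodH H w T κ A l) ∨ (GoodH H w T κ A l ∧ ¬ Rare (ε / 2) w l))})) ?_)
    intro I I' h
    exact Subtype.ext (Subtype.mk.inj h)
  · -- the classes are disjoint
    have h3 : ∑ t : {t : Raw S q J w d // Ok P κ t}, Nat.card {I : C → X // InK P H T A t.1 I} ≤
        Nat.card {I : C → X // ∃ l z, P.Ends I l z ∧ GoodH H w T κ A l} := by
      rw [← Nat.card_sigma]
      refine Nat.card_le_card_of_injective
        (fun p : Σ t : {t : Raw S q J w d // Ok P κ t}, {I : C → X // InK P H T A t.1 I} =>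
          (⟨p.2.1, by
            obtain ⟨l, z, hE, -, hg, -⟩ := of_inK p.1.2 p.2.2
            exact ⟨l, z, hE, hg⟩⟩ : {I : C → X // ∃ l z, P.Ends I l z ∧ GoodH H w T κ A l})) ?_
      rintro ⟨⟨t, ht⟩, I, hI⟩ ⟨⟨t', ht'⟩, I', hI'⟩ h
      have h4 : I = I' := Subtype.mk.inj h
      subst h4
      have h5 := unique hP ht hI ht' hI'
      subst h5
      rfl
    have h4 : Nat.card {I : C → X // ∃ l z, P.Ends I l z ∧ GoodH H w T κ A l} ≤
        Nat.card {I : C → X // ∃ l z, P.Ends I l z ∧ Rare (ε / 2) w l} +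
        Nat.card {I : C → X // ∃ l z, P.Ends I l z ∧ ((Rare ε w l ∧ ¬ GoodH H w T κ A l) ∨
          (GoodH H w T κ A l ∧ ¬ Rare (ε / 2) w l))} := by
      rw [← Nat.card_sum]
      have h5 : ∀ I : {I : C → X // ∃ l z, P.Ends I l z ∧ GoodH H w T κ A l},
          (∃ l z, P.Ends I.1 l z ∧ Rare (ε / 2) w l) ∨ ∃ l z, P.Ends I.1 l z ∧
            ((Rare ε w l ∧ ¬ GoodH H w T κ A l) ∨ (GoodH H w T κ A l ∧ ¬ Rare (ε / 2) w l)) := by
        rintro ⟨I, l, z, hE, hg⟩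
        by_cases hR : Rare (ε / 2) w l
        · exact Or.inl ⟨l, z, hE, hR⟩
        · exact Or.inr ⟨l, z, hE, Or.inr ⟨hg, hR⟩⟩
      refine Nat.card_le_card_of_injective (fun I => if h6 : ∃ l z, P.Ends I.1 l z ∧ Rare (ε / 2) w l then
        Sum.inl ⟨I.1, h6⟩ else Sum.inr ⟨I.1, (h5 I).resolve_left h6⟩) ?_
      intro I I' h
      simp only at h
      split_ifs at h with h6 h7 h7
      · exact Subtype.ext (Subtype.mk.inj (Sum.inl.inj h))
      · exact Subtype.ext (Subtype.mk.inj (Sum.inr.inj h))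
    have h6 : (∑ t : {t : Raw S q J w d // Ok P κ t}, (Nat.card {I : C → X // InK P H T A t.1 I} : ℝ)) ≤
        Nat.card {I : C → X // ∃ l z, P.Ends I l z ∧ Rare (ε / 2) w l} +
        Nat.card {I : C → X // ∃ l z, P.Ends I l z ∧ ((Rare ε w l ∧ ¬ GoodH H w T κ A l) ∨
          (GoodH H w T κ A l ∧ ¬ Rare (ε / 2) w l))} := by
      exact_mod_cast h3.trans h4
    exact h6.trans (add_le_add le_rfl hbad)

end Pool.Agent.Helper99.BT.Asm
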