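import Pool.Agent.Helper99.BT.Asm
import Pool.Agent.Helper45.BT.Samples

/-!
# BT, piece W: the classes, final form
-/

set_option autoImplicit false

namespace Pool.Agent.Helper99.BT

open Finset Pool.Agent.Helper74.NW Pool.Agent.Helper96.BT
open Pool.Agent.Helper96.PH (Det)

theorem classes {C X Z : Type} [Fintype C] [Fintype X] [Nonempty C] {S d : ℕ} (P : NProg C X Z S) (hP : Det P)
    (hS : S ≤ 2 ^ d) {w q T : ℕ} {ε θ : ℝ} (h0 : 0 < ε) (h1 : ε ≤ 1) (hθ0 : 0 < θ) (hθ1 : θ ≤ 1)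
    (hT : (Fintype.card C : ℝ) ≤ T + ε / (4 * 2 ^ w) * Fintype.card C)
    (hq : (10 ^ 6 : ℝ) * 2 ^ w * (w + 1) * (d + 1 / θ) ^ 2 / (ε ^ 2 * θ) ≤ q) (hqN : q ≤ Fintype.card C) :
    ∃ (Θ : Type) (_ : Fintype Θ) (L : Θ → Fin 2 → List (Fin S × ℕ × Fin S)) (Φ : Θ → Fin 2 → List C → Prop)
      (y : Θ → Z), Fintype.card Θ ≤ (S * (2 ^ d + 1) * (w + 2) ^ q) ^ ((w + 1) * q + 2) ∧
      (∀ t j, (L t j).length ≤ (w + 1) * q + 1) ∧ (∀ t j, ∀ p ∈ L t j, p.2.1 ≤ 2 ^ d) ∧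
      (Nat.card {I : C → X // ∃ l z, P.Ends I l z ∧ Rare ε w l ∧
        ¬ ∃ t, y t = z ∧ ∀ j, InC P T (L t j) (Φ t j) I} : ℝ) ≤ θ * Nat.card (C → X) ∧
      ∑ t, (Nat.card {I : C → X // ∀ j, InC P T (L t j) (Φ t j) I} : ℝ) ≤
        Nat.card {I : C → X // ∃ l z, P.Ends I l z ∧ Rare (ε / 2) w l} + θ * Nat.card (C → X) :=
  Asm.classes_of P hP hS (fun hq0 hE0 hE hS h0 hT' => Pool.Agent.Helper45.BT.exists_cut P hP hq0 hE0 hE hS h0 hT')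
    h0 h1 hθ0 hθ1 hT hq hqN

end Pool.Agent.Helper99.BT
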