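import Pool.Agent.Helper96.BT.Defs
import Pool.Agent.Helper99.NK.Times

/-!
# Short computations are rare
-/

set_option autoImplicit false

namespace Pool.Agent.Helper99.BT

open Finset Pool.Agent.Helper96.BT

/-- If there are at most `w / 2` queries per symbol, half of the symbols are queried at most `w` times each. -/
theorem rare_of_length {C : Type} [Fintype C] {w : ℕ} {l : List C} (h : 2 * l.length ≤ w * Fintype.card C) :
    Rare (1 / 2) w l := by
  classical
  set Y : Finset C := univ.filter (fun z => w + 1 ≤ Pool.Agent.Helper99.NK.times l z) with hY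
  have h1 : (w + 1) * Y.card ≤ l.length := by
    have h2 : ∑ z ∈ Y, (w + 1) ≤ ∑ z ∈ Y, Pool.Agent.Helper99.NK.times l z :=
      sum_le_sum fun z hz => (mem_filter.1 hz).2
    rw [sum_const, smul_eq_mul, mul_comm] at h2
    refine h2.trans ?_
    unfold Pool.Agent.Helper99.NK.times
    have h3 : ∑ z ∈ Y, l.count z ≤ ∑ z ∈ l.toFinset ∪ Y, l.count z :=
      sum_le_sum_of_subset subset_union_right
    refine h3.trans (le_of_eq ?_)
    rw [← sum_subset (subset_union_left (s₁ := l.toFinset) (s₂ := Y))]
    · exact List.sum_toFinset_count_eq_length l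
    · intro x _ hx
      rw [List.mem_toFinset] at hx
      exact List.count_eq_zero_of_not_mem hx
  refine ⟨Yᶜ, ?_, fun z hz => ?_⟩
  · rw [card_compl]
    have h2 : 2 * Y.card ≤ Fintype.card C := by
      have h3 : 2 * ((w + 1) * Y.card) ≤ w * Fintype.card C := (Nat.mul_le_mul_left 2 h1).trans h
      by_contra h4
      push Not at h4
      have h5 : (w + 1) * Fintype.card C ≤ (w + 1) * (2 * Y.card) := Nat.mul_le_mul_left _ h4.le
      have h6 : (w + 1) * Fintype.card C ≤ w * Fintype.card C := by
        refine h5.trans (le_trans (le_of_eq ?_) h3)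
        ring
      have h7 : Fintype.card C = 0 := by nlinarith
      have h8 : Y.card ≤ Fintype.card C := card_le_univ Y
      omega
    have h3 : Y.card ≤ Fintype.card C := by omega
    push_cast [Nat.cast_sub h3]
    have h4 : (2 * Y.card : ℝ) ≤ Fintype.card C := by exact_mod_cast h2
    linarith
  · rw [mem_compl, hY, mem_filter] at hz
    push Not at hz
    exact Nat.le_of_lt_succ (hz (mem_univ z))

end Pool.Agent.Helper99.BT
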