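import Pool.Agent.Helper99.BT.Defs

/-!
# Frame of BT, piece W (`classes` of `Helper96.BT.Frame`)
(this file contains `sorry` and is not imported by anything)

The computation is cut at the level sets of the sum of the counters of `q` sampled symbols (`cutp`), so the number of
the windows is `J = (w + 1) * q + 1`, and the time is not bounded.
-/

namespace Pool.Agent.Helper99.BT.Frame

open Finset Pool.Agent.Helper74.NW Pool.Agent.Helper96.BT Pool.Agent.Helper99.BT
open Pool.Agent.Helper99.NK (times)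
open Pool.Agent.Helper96.PH (Det)

/-! ## C: cut points and counters (lists only) -/

section lists

variable {C : Type} {S q J w : ℕ} {H : Fin q → C}

/-- C1: the cut points of a list are admissible, and the windows satisfy `WinP`. -/
theorem adm_cutp (hJ : (w + 1) * q < J) (l : List C) :
    Adm J (cutp H w l) (fun j => adv H w 0 (l.take (cutp H w l j))) ∧ cutp H w l J = l.length ∧
      ∀ j, WinP H w j (adv H w 0 (l.take (cutp H w l j))) (adv H w 0 (l.take (cutp H w l (j + 1))))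
        (seg (cutp H w l) l j) := by
  sorry

/-- C2: admissible cut points with `WinP` are the cut points of the list. -/
theorem adm_unique {b : ℕ → ℕ} {V : ℕ → Fin q → ℕ} (h : Adm J b V) {l : List C} (hl : b J = l.length)
    (hw : ∀ j < J, WinP H w j (V j) (V (j + 1)) (seg b l j)) :
    ∀ j ≤ J, b j = cutp H w l j ∧ V j = adv H w 0 (l.take (b j)) := by
  sorry

/-- C3: every window, without its last query, contains no sampled symbol which is queried at most `w` times. -/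
theorem seg_free (l : List C) (j t : ℕ) (ht : t + 1 < (seg (cutp H w l) l j).length) (i : Fin q)
    (hi : (seg (cutp H w l) l j)[t]? = some (H i)) : w < times l (H i) := by
  sorry

/-- C4: if the two sides satisfy `PhiS`, all windows satisfy `WinP`. -/
theorem winP_of_sides {A : Finset (Fin J)} {b : ℕ → ℕ} (hb : Monotone b) {V : ℕ → Fin q → ℕ} {l : List C}
    (hl : b J ≤ l.length) (h : PhiS H w A b V (partb A b l)) (h' : PhiS H w Aᶜ b V (partb Aᶜ b l)) :
    ∀ j < J, WinP H w j (V j) (V (j + 1)) (seg b l j) := by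
  sorry

/-- C5: the converse, for any `A`. -/
theorem phiS_partb (A : Finset (Fin J)) {b : ℕ → ℕ} (hb : Monotone b) {V : ℕ → Fin q → ℕ} {l : List C}
    (hl : b J ≤ l.length) (h : ∀ j < J, WinP H w j (V j) (V (j + 1)) (seg b l j)) :
    PhiS H w A b V (partb A b l) := by
  sorry

end lists

/-! ## K: runs -/

section runs

variable {C X Z : Type} {S : ℕ} {P : NProg C X Z S} {I : C → X}

/-- K3: the segments of a run. -/
theorem runL_side {s t : Fin S} {l : List C} (h : P.Run I s l t) {J : ℕ} {b : ℕ → ℕ} (hb : Monotone b) (h0 : b 0 = 0)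
    (hl : b J = l.length) :
    ∃ σ : Fin (J + 1) → Fin S, σ 0 = s ∧ σ (Fin.last J) = t ∧
      ∀ A : Finset (Fin J), RunL P I (sideb A b σ) (partb A b l) := by
  sorry

/-- K4: the two sides together give a run. -/
theorem run_of_sides {J : ℕ} {b : ℕ → ℕ} (hb : Monotone b) (h0 : b 0 = 0) {σ : Fin (J + 1) → Fin S}
    {A : Finset (Fin J)} {c c' : List C} (h : RunL P I (sideb A b σ) c) (h' : RunL P I (sideb Aᶜ b σ) c') :
    ∃ l, P.Run I (σ 0) l (σ (Fin.last J)) ∧ l.length = b J ∧ c = partb A b l ∧ c' = partb Aᶜ b l := by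
  sorry

/-- K6: for a deterministic program the states at the cuts are determined by the first state. -/
theorem sigma_unique (hP : Det P) {J : ℕ} {b : ℕ → ℕ} {σ σ' : Fin (J + 1) → Fin S} {A : Finset (Fin J)}
    {c c' d d' : List C} (h : RunL P I (sideb A b σ) c) (h' : RunL P I (sideb Aᶜ b σ) c')
    (hd : RunL P I (sideb A b σ') d) (hd' : RunL P I (sideb Aᶜ b σ') d') (h0 : σ 0 = σ' 0) : σ = σ' := by
  sorry

/-- K9: a deterministic program has at most one computation, and its length is less than `S`. -/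
theorem ends_unique (hP : Det P) {l l' : List C} {z z' : Z} (h : P.Ends I l z) (h' : P.Ends I l' z') :
    l = l' ∧ z = z' ∧ l.length < S := by
  sorry

end runs

/-! ## E: samples and colours -/

/-- E1: few samples miss an interval of `l` with at least `E` different elements of `X` (helper43). -/
theorem samples {C : Type} [Fintype C] [Nonempty C] {q E k : ℕ} (X : Finset C) (l : List C) (hl : l.length ≤ k)
    (hE : E ≤ Fintype.card C) : open Classical in
    (Nat.card {H : Fin q → C // ∃ s t, E ≤ (((l.drop s).take t).toFinset ∩ X).card ∧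
        ∀ i, H i ∉ ((l.drop s).take t).toFinset ∩ X} : ℝ) ≤
      (k + 1) ^ 2 * (1 - (E : ℝ) / Fintype.card C) ^ q * Nat.card (Fin q → C) := by
  sorry

/-- E2, E3: Chebyshev for the number of samples in `X` (helper43). -/
theorem few_samples {C : Type} [Fintype C] [Nonempty C] {q : ℕ} (hq : 0 < q) (X : Finset C) {ε : ℝ} (hε : 0 < ε)
    (hX : ε * Fintype.card C ≤ X.card) :
    (Nat.card {H : Fin q → C // (Nat.card {i // H i ∈ X} : ℝ) < 3 / 4 * ε * q} : ℝ) ≤
      16 / (ε * q) * Nat.card (Fin q → C) := by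
  sorry

theorem many_samples {C : Type} [Fintype C] [Nonempty C] {q : ℕ} (hq : 0 < q) (X : Finset C) {ε : ℝ} (hε : 0 < ε)
    (hX : (X.card : ℝ) < ε / 2 * Fintype.card C) :
    (Nat.card {H : Fin q → C // 3 / 4 * ε * q ≤ (Nat.card {i // H i ∈ X} : ℝ)} : ℝ) ≤
      16 / (ε * q) * Nat.card (Fin q → C) := by
  sorry

/-- E4: one list, from E1 (`X` = the symbols queried at most `w` times, windows by C3 have at most `E` elements of `X`),
E2, E3 and `Helper43.BT.color`, `color_compl`. Pairs `(H, A)`. -/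
theorem one_list {C : Type} [Fintype C] [Nonempty C] {q w T d E : ℕ} (hq : 0 < q) (hE0 : 0 < E)
    (hE : E ≤ Fintype.card C) {ε : ℝ}
    (h0 : 0 < ε) (hT : (Fintype.card C : ℝ) ≤ T + ε * Fintype.card C / (2 * 2 ^ w)) (l : List C)
    (hl : l.length ≤ 2 ^ d) :
    (Nat.card {p : (Fin q → C) × Finset (Fin ((w + 1) * q + 1)) //
        (Rare ε w l ∧ ¬ GoodH p.1 w T (3 / 4 * ε * q) p.2 l) ∨
        (GoodH p.1 w T (3 / 4 * ε * q) p.2 l ∧ ¬ Rare (ε / 2) w l)} : ℝ) ≤
      ((2 ^ d + 1) ^ 2 * (1 - (E : ℝ) / Fintype.card C) ^ q +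
        8 * 2 ^ w * ((w + 1) * q + 1) * E ^ 2 / (ε * Fintype.card C) ^ 2 + 16 / (ε * q)) *
        Nat.card ((Fin q → C) × Finset (Fin ((w + 1) * q + 1))) := by
  sorry

/-- E5: samples and a colouring which are good for most inputs (averaging over the pairs `(H, A)`). -/
theorem exists_cut {C X Z : Type} [Fintype C] [Fintype X] [Nonempty C] {S : ℕ} (P : NProg C X Z S) (hP : Det P)
    {q w T d E : ℕ} (hq : 0 < q) (hE0 : 0 < E) (hE : E ≤ Fintype.card C) (hS : S ≤ 2 ^ d) {ε : ℝ} (h0 : 0 < ε)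
    (hT : (Fintype.card C : ℝ) ≤ T + ε * Fintype.card C / (2 * 2 ^ w)) :
    ∃ (H : Fin q → C) (A : Finset (Fin ((w + 1) * q + 1))),
      (Nat.card {I : C → X // ∃ l z, P.Ends I l z ∧
        ((Rare ε w l ∧ ¬ GoodH H w T (3 / 4 * ε * q) A l) ∨
          (GoodH H w T (3 / 4 * ε * q) A l ∧ ¬ Rare (ε / 2) w l))} : ℝ) ≤
      ((2 ^ d + 1) ^ 2 * (1 - (E : ℝ) / Fintype.card C) ^ q +
        8 * 2 ^ w * ((w + 1) * q + 1) * E ^ 2 / (ε * Fintype.card C) ^ 2 + 16 / (ε * q)) * Nat.card (C → X) := by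
  sorry

/-- E6: the numbers for E5. -/
theorem beta_le {N q w d : ℕ} {ε θ : ℝ} (h0 : 0 < ε) (h1 : ε ≤ 1) (hθ0 : 0 < θ) (hθ1 : θ ≤ 1) (hqN : q ≤ N)
    (hq : (10 ^ 6 : ℝ) * 2 ^ w * (w + 1) * (d + 1 / θ) ^ 2 / (ε ^ 2 * θ) ≤ q) :
    ∃ E : ℕ, 0 < E ∧ E ≤ N ∧ (2 ^ d + 1) ^ 2 * (1 - (E : ℝ) / N) ^ q +
        8 * 2 ^ w * ((w + 1) * q + 1) * E ^ 2 / (ε * N) ^ 2 + 16 / (ε * q) ≤ θ := by
  sorry

/-- W: the classes. The types are `(b, V, σ)` with `Adm J b V`, `b J ≤ 2 ^ d`, `V ≤ w + 1`, `σ 0 = P.start`,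
`P.act (σ J) = Sum.inr _`, and `κ ≤ #{i | V J i ≤ w}` (`V J i ≤ w ↔ times l (H i) ≤ w` for `V J = adv H w 0 l`);
`L = sideb`, `Φ = PhiS`. The type of an input is unique (C2, C4, K4, K6, K9). -/
theorem classes {C X Z : Type} [Fintype C] [Fintype X] [Nonempty C] {S d : ℕ} (P : NProg C X Z S) (hP : Det P)
    (hS : S ≤ 2 ^ d) {w q T : ℕ} {ε θ : ℝ} (h0 : 0 < ε) (h1 : ε ≤ 1) (hθ0 : 0 < θ) (hθ1 : θ ≤ 1)
    (hqN : q ≤ Fintype.card C)
    (hT : (Fintype.card C : ℝ) ≤ T + ε / (4 * 2 ^ w) * Fintype.card C)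
    (hq : (10 ^ 6 : ℝ) * 2 ^ w * (w + 1) * (d + 1 / θ) ^ 2 / (ε ^ 2 * θ) ≤ q) :
    ∃ (Θ : Type) (_ : Fintype Θ) (L : Θ → Fin 2 → List (Fin S × ℕ × Fin S)) (Φ : Θ → Fin 2 → List C → Prop)
      (y : Θ → Z), Fintype.card Θ ≤ (S * (2 ^ d + 1) * (w + 2) ^ q) ^ ((w + 1) * q + 2) ∧
      (∀ t j, (L t j).length ≤ (w + 1) * q + 1) ∧ (∀ t j, ∀ p ∈ L t j, p.2.1 ≤ 2 ^ d) ∧
      (Nat.card {I : C → X // ∃ l z, P.Ends I l z ∧ Rare ε w l ∧
        ¬ ∃ t, y t = z ∧ ∀ j, InC P T (L t j) (Φ t j) I} : ℝ) ≤ θ * Nat.card (C → X) ∧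
      ∑ t, (Nat.card {I : C → X // ∀ j, InC P T (L t j) (Φ t j) I} : ℝ) ≤
        Nat.card {I : C → X // ∃ l z, P.Ends I l z ∧ Rare (ε / 2) w l} + θ * Nat.card (C → X) := by
  sorry

end Pool.Agent.Helper99.BT.Frame
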